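import Pool.Agent.W805.LR.Stm3

/-!
# Quantum Heisenberg ferromagnet (spin 1/2) and random stirring
-/

set_option autoImplicit false

namespace Pool.Agent.W762.LR.QS

open Finset Equiv Filter Topology Pool.Agent.W805.LR

section alg

variable {V : Type} [Fintype V] [DecidableEq V]

/-- Permutation matrices on spin configurations. -/
noncomputable def T (g : Perm V) : Matrix (V → Bool) (V → Bool) ℂ :=
  fun s s' => if s' = s ∘ g then 1 else 0

lemma T_mul (g h : Perm V) : T g * T h = T (g * h) := by
  ext s s''
  rw [Matrix.mul_apply, Finset.sum_eq_single (s ∘ g)]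
  · simp only [T, if_true, one_mul]
    rfl
  · intro b _ hb
    simp only [T, if_neg hb, zero_mul]
  · intro h
    exact absurd (Finset.mem_univ _) h

lemma T_one : T (1 : Perm V) = 1 := by
  ext s s'
  simp only [T, Matrix.one_apply]
  have : (s ∘ (1 : Perm V) : V → Bool) = s := rfl
  rw [this]
  by_cases h : s = s'
  · rw [if_pos h.symm, if_pos h]
  · rw [if_neg (fun h' => h h'.symm), if_neg h]

/-- Flip at a point. -/
def fl (s : V → Bool) (x : V) : V → Bool := Function.update s x (!(s x))

lemma spin11 (x y : V) (s s' : V → Bool) :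
    (spin1 x * spin1 y) s s' = if s' = fl (fl s x) y then 1 / 4 else 0 := by
  rw [Matrix.mul_apply, Finset.sum_eq_single (fl s x)]
  · simp only [spin1, fl, if_true]
    split_ifs <;> norm_num
  · intro b _ hb
    have : spin1 x s b = 0 := by
      simp only [spin1]
      exact if_neg hb
    rw [this, zero_mul]
  · intro h
    exact absurd (Finset.mem_univ _) h

lemma spin22 (x y : V) (hxy : x ≠ y) (s s' : V → Bool) :
    (spin2 x * spin2 y) s s' = if s' = fl (fl s x) y then
      (if s x = s y then -1 / 4 else 1 / 4) else 0 := by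
  rw [Matrix.mul_apply, Finset.sum_eq_single (fl s x)]
  · have h1 : fl s x y = s y := by
      simp only [fl]
      exact Function.update_of_ne hxy.symm _ _
    have h2 : spin2 x s (fl s x) = if s x then -Complex.I / 2 else Complex.I / 2 := by
      simp only [spin2, fl, if_true]
    have h3 : spin2 y (fl s x) s' = if s' = fl (fl s x) y then
        (if s y then -Complex.I / 2 else Complex.I / 2) else 0 := by
      have : spin2 y (fl s x) s' = if s' = Function.update (fl s x) y (!(fl s x y)) then
        (if fl s x y then -Complex.I / 2 else Complex.I / 2) else 0 := rfl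
      rw [this, h1]
      have h4 : Function.update (fl s x) y (!(s y)) = fl (fl s x) y := by
        conv_rhs => rw [fl, h1]
      rw [h4]
    rw [h2, h3]
    have hI : Complex.I * Complex.I = -1 := Complex.I_mul_I
    by_cases h : s' = fl (fl s x) y
    · rw [if_pos h, if_pos h]
      rcases Bool.eq_false_or_eq_true (s x) with hx | hx <;>
      rcases Bool.eq_false_or_eq_true (s y) with hy | hy <;>
      simp only [hx, hy, if_true, Bool.false_eq_true, if_false, Bool.true_eq_false]
      · linear_combination hI / 4
      · linear_combination -hI / 4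
      · linear_combination -hI / 4
      · linear_combination hI / 4
    · rw [if_neg h, if_neg h, mul_zero]
  · intro b _ hb
    have : spin2 x s b = 0 := by
      simp only [spin2]
      exact if_neg hb
    rw [this, zero_mul]
  · intro h
    exact absurd (Finset.mem_univ _) h

lemma spin33 (x y : V) (s s' : V → Bool) :
    (spin3 x * spin3 y) s s' = if s = s' then
      (if s x = s y then 1 / 4 else -1 / 4) else 0 := by
  rw [spin3, spin3, Matrix.diagonal_mul_diagonal, Matrix.diagonal_apply]
  by_cases h : s = s'
  · rw [if_pos h, if_pos h]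
    rcases Bool.eq_false_or_eq_true (s x) with hx | hx <;>
    rcases Bool.eq_false_or_eq_true (s y) with hy | hy <;>
    simp only [hx, hy, if_true, Bool.false_eq_true, if_false, Bool.true_eq_false] <;> norm_num
  · rw [if_neg h, if_neg h]

lemma comp_swap_eq (x y : V) (s : V → Bool) (h : s x = s y) : s ∘ (swap x y) = s := by
  funext z
  simp only [Function.comp]
  by_cases hx : z = x
  · rw [hx, swap_apply_left, h]
  · by_cases hy : z = y
    · rw [hy, swap_apply_right, h]
    · rw [swap_apply_of_ne_of_ne hx hy]

lemma comp_swap_ne (x y : V) (hxy : x ≠ y) (s : V → Bool) (h : s x ≠ s y) :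
    s ∘ (swap x y) = fl (fl s x) y := by
  have hb : ∀ a b : Bool, a ≠ b → a = !b := by decide
  funext z
  simp only [Function.comp]
  by_cases hy : z = y
  · rw [hy, swap_apply_right]
    simp only [fl, Function.update_self]
    rw [Function.update_of_ne hxy.symm]
    exact hb _ _ h
  · have h1 : fl (fl s x) y z = fl s x z := by
      rw [fl, Function.update_of_ne hy]
    rw [h1]
    by_cases hx : z = x
    · rw [hx, swap_apply_left]
      simp only [fl, Function.update_self]
      exact hb _ _ h.symm
    · rw [swap_apply_of_ne_of_ne hx hy, fl, Function.update_of_ne hx]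

lemma spin_swap (x y : V) (hxy : x ≠ y) :
    spin1 x * spin1 y + spin2 x * spin2 y + spin3 x * spin3 y =
      (1 / 2 : ℂ) • T (swap x y) - (1 / 4 : ℂ) • (1 : Matrix (V → Bool) (V → Bool) ℂ) := by
  ext s s'
  rw [Matrix.add_apply, Matrix.add_apply, spin11, spin22 x y hxy, spin33, Matrix.sub_apply,
    Matrix.smul_apply, Matrix.smul_apply, Matrix.one_apply, T, smul_eq_mul, smul_eq_mul]
  by_cases h : s x = s y
  · rw [comp_swap_eq x y s h, if_pos h, if_pos h]
    by_cases h1 : s = s'
    · rw [if_pos h1, if_pos h1, if_pos h1.symm]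
      split_ifs <;> norm_num
    · have h2 : ¬ s' = s := fun h' => h1 h'.symm
      rw [if_neg h1, if_neg h1, if_neg h2]
      split_ifs <;> norm_num
  · rw [comp_swap_ne x y hxy s h, if_neg h, if_neg h]
    split_ifs <;> norm_num

/-- The hopping part. -/
noncomputable def B (J : V → V → ℝ) : Matrix (V → Bool) (V → Bool) ℂ :=
  ∑ x, ∑ y, ((J x y / 2 : ℝ) : ℂ) • T (swap x y)

lemma B_pow (J : V → V → ℝ) (m : ℕ) : B J ^ m = ∑ g, ((ringSum J m g : ℝ) : ℂ) • T g := by
  induction m with
  | zero =>
    rw [pow_zero, Finset.sum_eq_single (1 : Perm V)]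
    · simp only [ringSum, if_true, Complex.ofReal_one, one_smul, T_one]
    · intro b _ hb
      simp only [ringSum, if_neg hb, Complex.ofReal_zero, zero_smul]
    · intro h
      exact absurd (Finset.mem_univ _) h
  | succ m ih =>
    rw [pow_succ', ih, B, Finset.sum_mul]
    have h1 : ∀ g : Perm V, ((ringSum J (m + 1) g : ℝ) : ℂ) • T g =
        ∑ x, ∑ y, (((J x y / 2 : ℝ) : ℂ) * ((ringSum J m (swap x y * g) : ℝ) : ℂ)) • T g := by
      intro g
      simp only [ringSum, Complex.ofReal_sum, Complex.ofReal_mul, Finset.sum_smul]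
    simp_rw [h1]
    rw [Finset.sum_comm]
    refine Finset.sum_congr rfl fun x _ => ?_
    rw [Finset.sum_mul, Finset.sum_comm]
    refine Finset.sum_congr rfl fun y _ => ?_
    rw [Finset.mul_sum]
    refine Fintype.sum_equiv (Equiv.mulLeft (swap x y)) _ _ fun g => ?_
    rw [Equiv.coe_mulLeft, smul_mul_smul_comm, T_mul, ← mul_assoc, swap_mul_self, one_mul]

lemma heis_eq (J : V → V → ℝ) (hJ : ∀ x, J x x = 0) (β : ℝ) :
    (-β : ℂ) • heis J = (β : ℂ) • B J +
      ((-(β * (∑ x, ∑ y, J x y) / 4) : ℝ) : ℂ) • (1 : Matrix (V → Bool) (V → Bool) ℂ) := by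
  have h1 : heis J = -(B J - (((∑ x, ∑ y, J x y) / 4 : ℝ) : ℂ) •
      (1 : Matrix (V → Bool) (V → Bool) ℂ)) := by
    rw [heis, B]
    congr 1
    have h2 : ((((∑ x, ∑ y, J x y) / 4 : ℝ) : ℂ) • (1 : Matrix (V → Bool) (V → Bool) ℂ)) =
        ∑ x, ∑ y, ((J x y : ℂ) * (1 / 4)) • (1 : Matrix (V → Bool) (V → Bool) ℂ) := by
      push_cast
      simp only [← Finset.sum_smul, ← Finset.sum_mul]
      congr 1
      ring
    rw [h2, ← Finset.sum_sub_distrib]
    refine Finset.sum_congr rfl fun x _ => ?_
    rw [← Finset.sum_sub_distrib]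
    refine Finset.sum_congr rfl fun y _ => ?_
    by_cases hxy : x = y
    · subst hxy
      rw [hJ]
      simp
    · rw [spin_swap x y hxy, smul_sub, smul_smul, smul_smul]
      congr 2
      push_cast
      ring
  rw [h1]
  push_cast
  module

lemma ringSum_bound (J : V → V → ℝ) (m : ℕ) : ∀ g : Perm V,
    |ringSum J m g| ≤ (∑ x, ∑ y, |J x y / 2|) ^ m := by
  induction m with
  | zero =>
    intro g
    simp only [ringSum, pow_zero]
    split_ifs <;> simp
  | succ m ih =>
    intro g
    simp only [ringSum]
    rw [pow_succ', Finset.sum_mul]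
    refine (Finset.abs_sum_le_sum_abs _ _).trans (Finset.sum_le_sum fun x _ => ?_)
    rw [Finset.sum_mul]
    refine (Finset.abs_sum_le_sum_abs _ _).trans (Finset.sum_le_sum fun y _ => ?_)
    rw [abs_mul]
    exact mul_le_mul_of_nonneg_left (ih _) (abs_nonneg _)

lemma summ (J : V → V → ℝ) (t : ℝ) (g : Perm V) :
    Summable fun m : ℕ => t ^ m / (m.factorial : ℝ) * ringSum J m g := by
  have h := Real.summable_pow_div_factorial (|t| * (∑ x, ∑ y, |J x y / 2|))
  refine Summable.of_norm_bounded h fun m => ?_
  rw [Real.norm_eq_abs, abs_mul, abs_div, abs_pow, Nat.abs_cast, mul_pow, mul_div_right_comm]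
  exact mul_le_mul_of_nonneg_left (ringSum_bound J m g) (by positivity)

/-- Expectation of an arbitrary observable. -/
lemma trace_exp (J : V → V → ℝ) (β : ℝ) (D : Matrix (V → Bool) (V → Bool) ℂ) :
    (D * NormedSpace.exp ((β : ℂ) • B J)).trace =
      ∑ g, ((stirMass J β g : ℝ) : ℂ) * (D * T g).trace := by
  let _ : NormedRing (Matrix (V → Bool) (V → Bool) ℂ) := Matrix.linftyOpNormedRing
  let _ : NormedAlgebra ℂ (Matrix (V → Bool) (V → Bool) ℂ) := Matrix.linftyOpNormedAlgebra
  have hs : HasSum (fun m : ℕ => ((m.factorial : ℂ)⁻¹) • ((β : ℂ) • B J) ^ m)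
      (NormedSpace.exp ((β : ℂ) • B J)) := NormedSpace.exp_series_hasSum_exp' _
  have hc : Continuous fun M : Matrix (V → Bool) (V → Bool) ℂ => (D * M).trace := by
    fun_prop
  have h2 : HasSum (fun m : ℕ => (D * (((m.factorial : ℂ)⁻¹) • ((β : ℂ) • B J) ^ m)).trace)
      (D * NormedSpace.exp ((β : ℂ) • B J)).trace := by
    have := hs.map (AddMonoidHom.mk' (fun M : Matrix (V → Bool) (V → Bool) ℂ => (D * M).trace)
      (fun a b => by rw [mul_add, Matrix.trace_add])) hc
    exact this
  have h3 : HasSum (fun m : ℕ => (D * (((m.factorial : ℂ)⁻¹) • ((β : ℂ) • B J) ^ m)).trace)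
      (∑ g, ((stirMass J β g : ℝ) : ℂ) * (D * T g).trace) := by
    have h4 : ∀ g : Perm V, HasSum (fun m : ℕ =>
        ((β ^ m / (m.factorial : ℝ) * ringSum J m g : ℝ) : ℂ) * (D * T g).trace)
        (((stirMass J β g : ℝ) : ℂ) * (D * T g).trace) := by
      intro g
      exact (Complex.hasSum_ofReal.2 (summ J β g).hasSum).mul_right _
    have h5 := hasSum_sum (s := Finset.univ) (fun g _ => h4 g)
    have h6 : (fun m : ℕ => (D * (((m.factorial : ℂ)⁻¹) • ((β : ℂ) • B J) ^ m)).trace) =
        fun m : ℕ => ∑ g : Perm V,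
          ((β ^ m / (m.factorial : ℝ) * ringSum J m g : ℝ) : ℂ) * (D * T g).trace := by
      funext m
      rw [smul_pow, B_pow, Matrix.mul_smul, Matrix.mul_smul, Matrix.mul_sum, Matrix.trace_smul,
        Matrix.trace_smul, Matrix.trace_sum, smul_eq_mul, smul_eq_mul, Finset.mul_sum,
        Finset.mul_sum]
      refine Finset.sum_congr rfl fun g _ => ?_
      rw [Matrix.mul_smul, Matrix.trace_smul, smul_eq_mul]
      push_cast
      ring
    rw [h6]
    exact h5
  exact h2.unique h3

/-! ### Counting -/

lemma inv_iff (g : Perm V) (s : V → Bool) :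
    s = s ∘ g ↔ ∀ x y, g.SameCycle x y → s x = s y := by
  constructor
  · intro h
    have h1 : ∀ x, s (g x) = s x := fun x => (congrFun h x).symm
    have h2 : ∀ (n : ℕ) (x : V), s ((g ^ n) x) = s x := by
      intro n
      induction n with
      | zero => intro x; rfl
      | succ n ih =>
        intro x
        rw [pow_succ', Perm.mul_apply, h1, ih]
    intro x y hxy
    obtain ⟨n, _, hn⟩ := hxy.exists_pow_eq'
    rw [← hn, h2]
  · intro h
    funext x
    exact h x (g x) (Perm.sameCycle_apply_right.2 (Perm.SameCycle.refl g x))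

lemma card_inv (g : Perm V) :
    (∑ s : V → Bool, if s = s ∘ g then (1 : ℂ) else 0) = 2 ^ cyc g := by
  classical
  rw [Finset.sum_boole]
  have h1 : (Finset.univ.filter fun s : V → Bool => s = s ∘ g).card = 2 ^ cyc g := by
    have e : {s : V → Bool // s = s ∘ g} ≃ (Quotient (Perm.SameCycle.setoid g) → Bool) :=
      { toFun := fun s => fun q => Quotient.lift s.1 (fun a b hab => (inv_iff g s.1).1 s.2 a b hab) q
        invFun := fun f => ⟨fun x => f (Quotient.mk _ x), (inv_iff g _).2 fun x y hxy => by
          congr 1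
          exact Quotient.sound hxy⟩
        left_inv := fun s => by
          apply Subtype.ext
          funext x
          rfl
        right_inv := fun f => by
          funext q
          induction q using Quotient.inductionOn with
          | h x => rfl }
    rw [← Fintype.card_subtype, ← Nat.card_eq_fintype_card, Nat.card_congr e, Nat.card_fun]
    simp [cyc]
  rw [h1]
  push_cast
  rfl

/-- The value of a spin. -/
noncomputable def e (b : Bool) : ℂ := if b then 1 / 2 else -1 / 2

lemma e_not (b : Bool) : e (!b) = -e b := by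
  cases b <;> simp [e] <;> norm_num

lemma e_sq (b : Bool) : e b * e b = 1 / 4 := by
  cases b <;> simp [e] <;> norm_num

lemma corr (g : Perm V) (x y : V) :
    (∑ s : V → Bool, if s = s ∘ g then e (s x) * e (s y) else 0) =
      open Classical in if g.SameCycle x y then (2 : ℂ) ^ cyc g / 4 else 0 := by
  classical
  by_cases h : g.SameCycle x y
  · rw [if_pos h, ← card_inv g, Finset.sum_div]
    refine Finset.sum_congr rfl fun s _ => ?_
    by_cases hs : s = s ∘ g
    · rw [if_pos hs, if_pos hs, (inv_iff g s).1 hs x y h, e_sq]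
    · rw [if_neg hs, if_neg hs, zero_div]
  · rw [if_neg h]
    have hF : ∀ F : (V → Bool) → ℂ, (∀ s, F (fun z => if g.SameCycle x z then !(s z) else s z) =
        -F s) → ∑ s, F s = 0 := by
      intro F hF
      have hinv : Function.Involutive
          (fun s : V → Bool => fun z => if g.SameCycle x z then !(s z) else s z) := by
        intro s
        funext z
        by_cases hz : g.SameCycle x z
        · simp only [if_pos hz, Bool.not_not]
        · simp only [if_neg hz]
      have h1 : ∑ s, F s = ∑ s, -F s :=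
        (Fintype.sum_equiv hinv.toPerm (fun s => -F s) F (fun s => (hF s).symm)).symm
      rw [Finset.sum_neg_distrib] at h1
      exact self_eq_neg.1 h1
    refine hF _ fun s => ?_
    have hiff : ((fun z => if g.SameCycle x z then !(s z) else s z) =
        (fun z => if g.SameCycle x z then !(s z) else s z) ∘ g) ↔ s = s ∘ g := by
      rw [funext_iff, funext_iff]
      refine forall_congr' fun z => ?_
      simp only [Function.comp, Perm.sameCycle_apply_right]
      by_cases hz : g.SameCycle x z
      · simp only [if_pos hz]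
        constructor
        · intro h'
          exact Bool.not_inj h'
        · intro h'
          rw [← h']
      · simp only [if_neg hz]
    simp only [hiff, if_neg h, if_pos (Perm.SameCycle.refl g x), e_not]
    by_cases hs : s = s ∘ g
    · rw [if_pos hs, if_pos hs]
      ring
    · rw [if_neg hs, if_neg hs, neg_zero]

lemma trace_T (g : Perm V) : (T g).trace = 2 ^ cyc g := by
  rw [← card_inv g]
  rfl

lemma mag_eq : (∑ x : V, spin3 x) = Matrix.diagonal fun s : V → Bool => ∑ x, e (s x) := by
  ext s s'
  rw [Matrix.sum_apply, Matrix.diagonal_apply]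
  by_cases h : s = s'
  · rw [if_pos h]
    refine Finset.sum_congr rfl fun x _ => ?_
    rw [spin3, Matrix.diagonal_apply, if_pos h]
    rfl
  · rw [if_neg h]
    refine Finset.sum_eq_zero fun x _ => ?_
    rw [spin3, Matrix.diagonal_apply, if_neg h]

lemma trace_mag (g : Perm V) : ((∑ x, spin3 x) ^ 2 * T g).trace =
    ((2 ^ cyc g * ((∑ x, len g x) / 4) : ℝ) : ℂ) := by
  classical
  rw [mag_eq, pow_two, Matrix.diagonal_mul_diagonal, Matrix.trace]
  have h1 : ∀ s : V → Bool, (Matrix.diag ((Matrix.diagonal fun s : V → Bool =>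
      (∑ x, e (s x)) * ∑ x, e (s x)) * T g)) s =
      ∑ x, ∑ y, if s = s ∘ g then e (s x) * e (s y) else 0 := by
    intro s
    rw [Matrix.diag_apply, Matrix.diagonal_mul, T]
    by_cases hs : s = s ∘ g
    · simp only [if_pos hs, mul_one]
      rw [Finset.sum_mul_sum]
    · simp only [if_neg hs, mul_zero, Finset.sum_const_zero]
  simp_rw [h1]
  rw [Finset.sum_comm]
  have h2 : ∀ x : V, (∑ s : V → Bool, ∑ y, if s = s ∘ g then e (s x) * e (s y) else 0) =
      (2 : ℂ) ^ cyc g / 4 * ((len g x : ℝ) : ℂ) := by
    intro x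
    rw [Finset.sum_comm]
    simp_rw [corr g x]
    rw [len, cnt, Complex.ofReal_sum, Finset.mul_sum]
    refine Finset.sum_congr rfl fun y _ => ?_
    split_ifs <;> simp
  simp_rw [h2]
  rw [← Finset.mul_sum]
  push_cast
  ring

end alg

/-- QS: the partition function and the mean square magnetisation in terms of stirring. -/
theorem main : S_quantum := by
  intro V _ _ J β hJ
  refine ⟨Real.exp (-(β * (∑ x, ∑ y, J x y) / 4)), Real.exp_pos _, ?_⟩
  have hexp : ∀ D : Matrix (V → Bool) (V → Bool) ℂ, (D * gibbsOp J β).trace =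
      ((Real.exp (-(β * (∑ x, ∑ y, J x y) / 4)) : ℝ) : ℂ) *
        ∑ g, ((stirMass J β g : ℝ) : ℂ) * (D * T g).trace := by
    intro D
    rw [← trace_exp J β D, gibbsOp, heis_eq J hJ β, Matrix.exp_add_of_commute]
    · have h1 : NormedSpace.exp (((-(β * (∑ x, ∑ y, J x y) / 4) : ℝ) : ℂ) •
          (1 : Matrix (V → Bool) (V → Bool) ℂ)) =
          ((Real.exp (-(β * (∑ x, ∑ y, J x y) / 4)) : ℝ) : ℂ) •
          (1 : Matrix (V → Bool) (V → Bool) ℂ) := by
        rw [← Matrix.diagonal_one, ← Matrix.diagonal_smul, Matrix.exp_diagonal,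
          ← Matrix.diagonal_smul]
        congr 1
        funext s
        rw [Pi.coe_exp, Complex.ofReal_exp, Complex.exp_eq_exp_ℂ]
        simp
      rw [h1, mul_smul_comm, mul_one, Matrix.mul_smul, Matrix.trace_smul, smul_eq_mul]
    · exact ((Commute.one_right _).smul_right _)
  constructor
  · have h := hexp 1
    rw [one_mul] at h
    rw [h]
    simp only [one_mul, trace_T]
    push_cast
    rfl
  · rw [hexp]
    simp only [trace_mag]
    push_cast
    congr 1
    refine Finset.sum_congr rfl fun g _ => ?_
    ring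

end Pool.Agent.W762.LR.QS
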